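import Pool.Agent.helper24.IC.Spec

set_option autoImplicit false

namespace Pool.Agent.IC

universe u

section

variable {S : Type u} [Ring S] {T : ℕ → Subring S} {e ε : ℕ → S}

theorem STA_le0 (h : Dat T e ε) (m k : ℕ) :
    e m * e (m + k) = e (m + k) ∧ e (m + k) * e m = e (m + k) := by
  induction k with
  | zero => exact ⟨h.idem m, h.idem m⟩
  | succ k ih =>
    constructor
    · calc e m * e (m + k + 1) = e m * (e (m + k) * e (m + k + 1)) := by rw [h.le1]
        _ = (e m * e (m + k)) * e (m + k + 1) := (mul_assoc _ _ _).symm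
        _ = e (m + k + 1) := by rw [ih.1, h.le1]
    · calc e (m + k + 1) * e m = (e (m + k + 1) * e (m + k)) * e m := by rw [h.le2]
        _ = e (m + k + 1) * (e (m + k) * e m) := mul_assoc _ _ _
        _ = e (m + k + 1) := by rw [ih.2, h.le2]

theorem STA_l (h : Dat T e ε) {m m' : ℕ} (hm : m ≤ m') : e m * e m' = e m' := by
  obtain ⟨k, rfl⟩ := Nat.exists_eq_add_of_le hm
  exact (STA_le0 h m k).1

theorem STA_r (h : Dat T e ε) {m m' : ℕ} (hm : m ≤ m') : e m' * e m = e m' := by
  obtain ⟨k, rfl⟩ := Nat.exists_eq_add_of_le hm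
  exact (STA_le0 h m k).2

theorem STA_one (h : Dat T e ε) {m m' : ℕ} (hm : m ≤ m') (x : S) (hx : x ∈ T m)
    (hxe : x * e m = x) (h0 : x * e m' = 0) : x = 0 := by
  rcases h.prim m x hx with h1 | ⟨y, -, hy⟩
  · rw [← hxe, h1]
  · exfalso
    apply h.ne m'
    calc e m' = e m * e m' := (STA_l h hm).symm
      _ = y * (x * e m) * e m' := by rw [hy]
      _ = y * (x * (e m * e m')) := by rw [mul_assoc, mul_assoc]
      _ = 0 := by rw [STA_l h hm, h0, mul_zero]

/-- The division ring at the level `m`. -/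
theorem STA_div (h : Dat T e ε) (m : ℕ) (x : S) (hx : x ∈ T m) (h1 : e m * x = x)
    (h2 : x * e m = x) (h0 : x ≠ 0) :
    ∃ y ∈ T m, e m * y = y ∧ y * e m = y ∧ y * x = e m ∧ x * y = e m := by
  have key : ∀ z : S, z ∈ T m → e m * z = z → z * e m = z → z ≠ 0 →
      ∃ y ∈ T m, e m * y = y ∧ y * e m = y ∧ y * z = e m := by
    intro z hz hz1 hz2 hz0
    rcases h.prim m z hz with h3 | ⟨y, hy, hye⟩
    · exact absurd (hz2.symm.trans h3) hz0
    · refine ⟨e m * y * e m, (T m).mul_mem ((T m).mul_mem (h.mem m) hy) (h.mem m), ?_, ?_, ?_⟩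
      · rw [← mul_assoc, ← mul_assoc, h.idem m]
      · rw [mul_assoc, h.idem m]
      · rw [mul_assoc, hz1, mul_assoc, ← hz2, hye, h.idem m]
  obtain ⟨y, hy, hy1, hy2, hyx⟩ := key x hx h1 h2 h0
  have hy0 : y ≠ 0 := by
    intro hy0
    rw [hy0, zero_mul] at hyx
    exact h.ne m hyx.symm
  obtain ⟨z, -, -, hz2, hzy⟩ := key y hy hy1 hy2 hy0
  have hzx : z = x := by
    calc z = z * e m := hz2.symm
      _ = z * (y * x) := by rw [hyx]
      _ = (z * y) * x := (mul_assoc _ _ _).symm
      _ = x := by rw [hzy, h1]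
  exact ⟨y, hy, hy1, hy2, hyx, by rw [← hzx]; exact hzy⟩

theorem STA_kill (h : Dat T e ε) {m m' : ℕ} (hm : m ≤ m') (x : S) :
    (1 - e m) * (e m' * x) = 0 := by
  rw [← mul_assoc, sub_mul, one_mul, STA_l h hm, sub_self, zero_mul]

theorem STA_two (h : Dat T e ε) {n m M : ℕ} (hn : n ≤ m) (hm : m ≤ M) (c : S) (hc : c ∈ T n)
    (h0 : (1 - e M) * (c * e M) = 0) : c * e m = e m * (c * e m) := by
  have h1 : c * e M = e M * (c * e M) := by
    rw [sub_mul, one_mul, sub_eq_zero] at h0
    exact h0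
  have hcm : c ∈ T m := h.mono hn hc
  have hy : (1 - e m) * (c * e m) = 0 := by
    refine STA_one h hm _ ?_ ?_ ?_
    · exact (T m).mul_mem ((T m).sub_mem (T m).one_mem (h.mem m)) ((T m).mul_mem hcm (h.mem m))
    · rw [mul_assoc, mul_assoc, h.idem m]
    · rw [mul_assoc, mul_assoc, STA_l h hm, h1, STA_kill h hm]
  rw [sub_mul, one_mul, sub_eq_zero] at hy
  exact hy

end

theorem STA : STA_stmt.{u} := by
  intro S _ T e ε h n a c hc hex hS
  classical
  -- the least index
  have hex' : ∃ l, c l ≠ 0 ∧ l ≤ a := by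
    obtain ⟨l, hl, hl0⟩ := hex
    exact ⟨l, hl0, hl⟩
  obtain ⟨hi0, hia⟩ := Nat.find_spec hex'
  have hmin : ∀ l, l < Nat.find hex' → c l = 0 := by
    intro l hl
    by_contra hne
    exact Nat.find_min hex' hl ⟨hne, hl.le.trans hia⟩
  generalize Nat.find hex' = i at hi0 hia hmin
  have hmM : n + i + 1 ≤ n + a + 1 := by omega
  have hnm : n ≤ n + i + 1 := by omega
  obtain ⟨hcT, hc1, hc2, hc3⟩ := hc i hia
  -- the sum is fixed by `e M`
  have h1 : ∑ l ∈ Finset.range (a + 1), c l * (ε (n + l) * e (n + a + 1)) =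
      e (n + a + 1) * ∑ l ∈ Finset.range (a + 1), c l * (ε (n + l) * e (n + a + 1)) := by
    rw [sub_mul, one_mul, sub_eq_zero] at hS
    exact hS
  have h2 : (1 - e (n + i + 1)) * ∑ l ∈ Finset.range (a + 1), c l * (ε (n + l) * e (n + a + 1)) = 0 := by
    rw [h1]
    exact STA_kill h hmM _
  rw [Finset.mul_sum, Finset.sum_eq_single i] at h2
  · have hεm : ε (n + i) * e (n + i + 1) = ε (n + i) := h.ε2 (n + i)
    have h3 : (1 - e (n + i + 1)) * (c i * ε (n + i)) = 0 := by
      refine STA_one h hmM _ ?_ ?_ ?_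
      · exact (T _).mul_mem ((T _).sub_mem (T _).one_mem (h.mem _))
          ((T _).mul_mem (h.mono hnm hcT) (h.meme (n + i)))
      · rw [mul_assoc, mul_assoc, hεm]
      · rw [mul_assoc, mul_assoc]
        exact h2
    have h4 : c i * ε (n + i) = e (n + i + 1) * (c i * ε (n + i)) := by
      rw [sub_mul, one_mul, sub_eq_zero] at h3
      exact h3
    obtain ⟨d, hd, hd1, hd2, hdc, hcd⟩ := STA_div h n (c i) hcT hc1 hc2 hi0
    have hz1 : c i * e (n + i + 1) = e (n + i + 1) * (c i * e (n + i + 1)) :=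
      STA_two h hnm hmM (c i) hcT hc3
    have hz0 : c i * e (n + i + 1) ≠ 0 := fun h0 => hi0 (STA_one h hnm (c i) hcT hc2 h0)
    obtain ⟨z, hz, hzz1, hzz2, hzl, hzr⟩ := STA_div h (n + i + 1) (c i * e (n + i + 1))
      ((T _).mul_mem (h.mono hnm hcT) (h.mem _)) hz1.symm (by rw [mul_assoc, h.idem]) hz0
    have h5 : d * (c i * e (n + i + 1)) = e (n + i + 1) := by
      rw [← mul_assoc, hdc, STA_l h hnm]
    have h6 : d * e (n + i + 1) = z := by
      calc d * e (n + i + 1) = d * ((c i * e (n + i + 1)) * z) := by rw [hzr]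
        _ = (d * (c i * e (n + i + 1))) * z := (mul_assoc _ _ _).symm
        _ = z := by rw [h5, hzz1]
    have h7 : e n * ε (n + i) = ε (n + i) := by
      calc e n * ε (n + i) = e n * (e (n + i) * ε (n + i)) := by rw [h.ε1]
        _ = (e n * e (n + i)) * ε (n + i) := (mul_assoc _ _ _).symm
        _ = ε (n + i) := by rw [STA_l h (by omega), h.ε1]
    have h8 : ε (n + i) = z * (c i * ε (n + i)) := by
      calc ε (n + i) = (d * c i) * ε (n + i) := by rw [hdc, h7]
        _ = d * (c i * ε (n + i)) := mul_assoc _ _ _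
        _ = d * (e (n + i + 1) * (c i * ε (n + i))) := by rw [← h4]
        _ = (d * e (n + i + 1)) * (c i * ε (n + i)) := (mul_assoc _ _ _).symm
        _ = z * (c i * ε (n + i)) := by rw [h6]
    apply h.ε0 (n + i)
    rw [h8, ← hzz1, mul_assoc, ← h8]
    exact h.ε3 (n + i)
  · intro l hl hli
    rw [Finset.mem_range] at hl
    rcases lt_or_gt_of_ne hli with hlt | hgt
    · rw [hmin l hlt, zero_mul, mul_zero]
    · obtain ⟨hlT, hl1, hl2, hl3⟩ := hc l (by omega)
      have h9 : c l * e (n + l) = e (n + l) * (c l * e (n + l)) :=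
        STA_two h (by omega) (by omega) (c l) hlT hl3
      have h10 : c l * (ε (n + l) * e (n + a + 1)) =
          e (n + l) * ((c l * e (n + l)) * (ε (n + l) * e (n + a + 1))) := by
        calc c l * (ε (n + l) * e (n + a + 1)) = c l * ((e (n + l) * ε (n + l)) * e (n + a + 1)) := by
              rw [h.ε1]
          _ = (c l * e (n + l)) * (ε (n + l) * e (n + a + 1)) := by
              rw [mul_assoc, mul_assoc]
          _ = (e (n + l) * (c l * e (n + l))) * (ε (n + l) * e (n + a + 1)) := by rw [← h9]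
          _ = _ := mul_assoc _ _ _
      rw [h10]
      exact STA_kill h (by omega) _
  · intro hn
    exact absurd (Finset.mem_range.2 (by omega)) hn

end Pool.Agent.IC
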